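import Pool.Agent.Y702.A.Alg

/-!
# The 2-part of the Birch and Swinnerton-Dyer conjecture for the abelian varieties `E ⊗ M`

`E` is an elliptic curve over `ℚ` with a minimal equation `W`, and `M = ℤ^g` a lattice with an action
`ρ` of `Gal(ℚ(ζ_m)/ℚ) = (ℤ/m)ˣ` through a 2-group; `m` is squarefree and prime to `2 Δ`, and `a_l(E)` is
odd for all primes `l` that divide `m`.  The abelian variety `A = E ⊗ M` over `ℚ` has dimension `g`
(every abelian variety over `ℚ` that becomes isomorphic to `E^g` over a subfield of `ℚ(ζ_m)` is of this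
form if `E` has no complex multiplication); its dual is `E ⊗ M^∨`.  We prove the 2-part of the Birch and
Swinnerton-Dyer conjecture for `A` for `E = X_0(11)`, unconditionally, and for the curves of negative
discriminant with odd Manin constant for which it holds over `ℚ` with odd terms, if the primes that
divide `2 Δ` act trivially on `M`: `A(ℚ)` and `A'(ℚ)` are finite of odd order, `Ш(A/ℚ)[2^∞] = 0`, the
`L`-function of `A` is entire, and `L(A, 1)` is the product of the volumes `V_∞` and `V_bad` and of a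
rational number that is a unit at 2.

The volumes.  As `m` is squarefree, `A` has at the primes `l ∣ m` good reduction over a tamely ramified
extension; the Néron differential of `A` is, up to a unit at `l`, `l^(-(g - rank M^(I_l)) / 2)` times the
differential given by a basis of `M` and the Néron differential of `E`, and `∫_{A(ℚ_l)} |ω|_l` is a unit
at 2, as `E` has no point of order two modulo `l` and a 2-group acts on `M`; so these factors do not
appear.  The group `A(ℝ) = (E(ℂ) ⊗ M)^c` has the volume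
`realPeriod^(g₊) (complexPeriod / realPeriod)^(g - g₊)` for the latter differential, where `g₊` is the
rank of the sublattice fixed by the complex conjugation (for `Δ < 0`).  At the primes `p ∣ Δ` the volume is the
odd Tamagawa number times `#(E_p ⊗ M)⁰(𝔽_p) / p^g = det (1 - a_p / p ρ(p))`.
-/

set_option autoImplicit false

open NumberField NumberField.InfinitePlace IsDedekindDomain WeierstrassCurve MeasureTheory
open UpperHalfPlane MatrixGroups CongruenceSubgroup

namespace Pool.Agent.Results.MP_dfae13_nt.TensorTwoPart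

open scoped Classical

open Pool.Agent.TH841.NF.D (Sha)
open Pool.Agent.TH841.SH.D (Pt act Gal)

/-- The curve given by the equation of `W` over the ring `R`. -/
abbrev base (W : WeierstrassCurve ℤ) (R : Type) [CommRing R] : WeierstrassCurve R :=
  W.map (Int.castRingHom R)

/-- The number of the affine points `(x, y)` over the ring `R`. -/
noncomputable def pts (W : WeierstrassCurve ℤ) (R : Type) [CommRing R] : ℕ :=
  Nat.card {P : R × R // (base W R).toAffine.Equation P.1 P.2}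

section

variable {K : Type} [Field K] [NumberField K]

/-- `a_v = N v + 1 - #W(k_v)`, the points over the residue field `k_v` counted with the point at
infinity. -/
noncomputable def a (W : WeierstrassCurve ℤ) (v : HeightOneSpectrum (𝓞 K)) : ℤ :=
  (Ideal.absNorm v.asIdeal : ℤ) - pts W (𝓞 K ⧸ v.asIdeal)

/-- The Euler factor of `L(W/K, s)` at `v` : `(1 - a_v N v^(-s) + N v^(1 - 2 s))⁻¹` if the
discriminant is a unit at `v`, and `(1 - a_v N v^(-s))⁻¹` otherwise. -/
noncomputable def factor (W : WeierstrassCurve ℤ) (s : ℂ) (v : HeightOneSpectrum (𝓞 K)) : ℂ :=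
  (1 - (a W v : ℂ) * (Ideal.absNorm v.asIdeal : ℂ) ^ (-s) +
    if ((W.Δ : ℤ) : 𝓞 K) ∈ v.asIdeal then 0 else (Ideal.absNorm v.asIdeal : ℂ) ^ (1 - 2 * s))⁻¹

/-- The equation is minimal at the finite place `v` of `K`: no change of variables over `K` that
keeps the coefficients integral at `v` decreases the valuation of the discriminant. -/
def MinimalAt (W : WeierstrassCurve ℤ) (v : HeightOneSpectrum (𝓞 K)) : Prop :=
  ∀ C : VariableChange K, v.valuation K (C • base W K).a₁ ≤ 1 →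
    v.valuation K (C • base W K).a₂ ≤ 1 → v.valuation K (C • base W K).a₃ ≤ 1 →
    v.valuation K (C • base W K).a₄ ≤ 1 → v.valuation K (C • base W K).a₆ ≤ 1 →
    v.valuation K (C • base W K).Δ ≤ v.valuation K (base W K).Δ

/-- `E⁰(K_v)`, the group of the points of `W` over the completion `K_v` with nonsingular reduction:
the points `(x, y)` where `x` is not integral, or one of the partial derivatives of
`y² + a₁ x y + a₃ y - x³ - a₂ x² - a₄ x - a₆` is a unit at `(x, y)`, and the point at infinity. -/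
noncomputable def nonsing (W : WeierstrassCurve ℤ) (v : HeightOneSpectrum (𝓞 K)) :
    AddSubgroup (base W (v.adicCompletion K)).toAffine.Point :=
  AddSubgroup.closure {P | ∀ x y h, P = Affine.Point.some x y h →
    1 < Valued.v x ∨ Valued.v (W.a₁ * y - (3 * x ^ 2 + 2 * W.a₂ * x + W.a₄)) = 1 ∨
      Valued.v (2 * y + W.a₁ * x + W.a₃) = 1}

/-- The Tamagawa number `c_v = [E(K_v) : E⁰(K_v)]` of a minimal equation. -/
noncomputable def c (W : WeierstrassCurve ℤ) (v : HeightOneSpectrum (𝓞 K)) : ℕ :=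
  (nonsing W v).index

end

section

variable (K : Type) [Field K] [NumberField K]

/-- The product of the Tamagawa numbers. -/
noncomputable def Tam (W : WeierstrassCurve ℤ) : ℕ := ∏ᶠ v : HeightOneSpectrum (𝓞 K), c W v

/-- The 2-primary part of the Tate-Shafarevich group over `K`. -/
def Sha2 (W : WeierstrassCurve ℤ) : Set (Sha (base W K)) := {x | ∃ n : ℕ, 2 ^ n • x = 0}

/-- The torsion subgroup of the group of the points over `K`. -/
def tors (W : WeierstrassCurve ℤ) : Set (base W K).toAffine.Point := {P | ∃ n : ℕ, 0 < n ∧ n • P = 0}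

/-- The rank of the group of the points over `K`. -/
noncomputable def rank (W : WeierstrassCurve ℤ) : ℕ := Module.finrank ℤ (base W K).toAffine.Point

end

/-- `4 x³ + b₂ x² + 2 b₄ x + b₆ = (2 y + a₁ x + a₃)²`, where `b₂ = a₁² + 4 a₂`,
`b₄ = 2 a₄ + a₁ a₃`, `b₆ = a₃² + 4 a₆`. -/
def cubic (W : WeierstrassCurve ℤ) {R : Type} [CommRing R] (x : R) : R :=
  4 * x ^ 3 + W.b₂ * x ^ 2 + 2 * W.b₄ * x + W.b₆

/-- `∫_{W(ℝ)} |ω|` with `ω = dx / (2 y + a₁ x + a₃)`, as an integral over `x`: two real points lie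
over each `x` with `cubic x > 0`. -/
noncomputable def realPeriod (W : WeierstrassCurve ℤ) : ℝ :=
  2 * ∫ x in {x : ℝ | 0 < cubic W x}, 1 / √(cubic W x)

/-- `2 ∫_{W(ℂ)} |ω ∧ ω̄|`, where `|ω ∧ ω̄| = du dv` in a local parameter `z = u + i v` with
`dz = ω`, as an integral over `x`: two points lie over a general `x`, and `|ω ∧ ω̄|` is the area
element of the plane of `x` divided by `|cubic x|`. -/
noncomputable def complexPeriod (W : WeierstrassCurve ℤ) : ℝ := 2 * (2 * ∫ x : ℂ, 1 / ‖cubic W x‖)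

/-- The global period of an equation that is minimal at all finite places. -/
noncomputable def Omega (K : Type) [Field K] [NumberField K] (W : WeierstrassCurve ℤ) : ℝ :=
  realPeriod W ^ nrRealPlaces K * complexPeriod W ^ nrComplexPlaces K

/-- **The 2-part of the Birch and Swinnerton-Dyer conjecture** for `W` over `K`, the equation being
minimal and the rank being zero: almost all Tamagawa numbers are one; the `L`-function is entire; its
order at `s = 1` is the rank; the 2-primary part of the Tate-Shafarevich group is finite; and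
`L(1) √|Δ_K| / Ω` is a rational number with the same 2-adic valuation as
`#Ш[2^∞] Tam / #tors²`. -/
structure BSDTwo (K : Type) [Field K] [NumberField K] (W : WeierstrassCurve ℤ) : Prop where
  minimal : ∀ v : HeightOneSpectrum (𝓞 K), MinimalAt W v
  tam : {v : HeightOneSpectrum (𝓞 K) | c W v ≠ 1}.Finite
  rank : rank K W = 0
  points : Finite (base W K).toAffine.Point
  sha : (Sha2 K W).Finite
  formula : ∃ L : ℂ → ℂ, Differentiable ℂ L ∧
    (∀ s : ℂ, 3 / 2 < s.re → HasProd (factor (K := K) W s) (L s)) ∧ analyticOrderAt L 1 = 0 ∧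
    ∃ r : ℚ, L 1 * √|(discr K : ℝ)| = r * Omega K W ∧ r ≠ 0 ∧
      padicValRat 2 r = padicValRat 2
        ((Nat.card (Sha2 K W) * Tam K W : ℚ) / (Nat.card (tors K W) : ℚ) ^ 2)

/-- The algebraic terms of the formula are odd. -/
structure AllOdd (K : Type) [Field K] [NumberField K] (W : WeierstrassCurve ℤ) : Prop where
  sha : Sha2 K W = {0}
  tam : Odd (Tam K W)
  tors : Odd (Nat.card (tors K W))

section modular

variable {N : ℕ}

/-- The `n`-th coefficient of the cusp form `f = ∑ a_n q^n`. -/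
noncomputable def co (f : CuspForm (Gamma0 N : Subgroup (GL (Fin 2) ℝ)) 2) (n : ℕ) : ℂ :=
  (qExpansion 1 f).coeff n

/-- `2 π i ∫_(i∞)^z f(w) dw = ∑ a_n / n e^(2 π i n z)`. -/
noncomputable def prim (f : CuspForm (Gamma0 N : Subgroup (GL (Fin 2) ℝ)) 2) (z : ℂ) : ℂ :=
  ∑' n : ℕ, co f n / n * Complex.exp (2 * Real.pi * Complex.I * n * z)

/-- The cusp form `f` of weight two for `Γ₀(N)` is the newform of `W`: it is a normalised eigenform
of the Hecke operators and of the Fricke involution, with real coefficients that satisfy the bounds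
of Hasse, `N` has the same prime divisors as the discriminant, and `a_p = p + 1 - #W(𝔽_p)`. -/
structure IsNewform (W : WeierstrassCurve ℤ) (N : ℕ)
    (f : CuspForm (Gamma0 N : Subgroup (GL (Fin 2) ℝ)) 2) : Prop where
  one : co f 1 = 1
  real : ∀ n, (co f n).im = 0
  mul : ∀ m n : ℕ, Nat.Coprime m n → co f (m * n) = co f m * co f n
  pow : ∀ p j : ℕ, p.Prime → co f (p ^ (j + 2)) = co f p * co f (p ^ (j + 1)) -
      (if p ∣ N then 0 else (p : ℂ) * co f (p ^ j))
  good : ∀ p : ℕ, p.Prime → ¬ p ∣ N → ‖co f p‖ ≤ 2 * Real.sqrt p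
  bad : ∀ p : ℕ, p.Prime → p ∣ N → ‖co f p‖ ≤ 1
  fricke : ∃ w : ℝ, (w = 1 ∨ w = -1) ∧ ∀ τ τ' : ℍ, (τ' : ℂ) * ((N : ℂ) * (τ : ℂ)) = -1 →
    f τ' = -(w : ℂ) * (N : ℂ) * (τ : ℂ) ^ 2 * f τ
  level : ∀ p : ℕ, p.Prime → (p ∣ N ↔ (p : ℤ) ∣ W.Δ)
  coef : ∀ p : ℕ, p.Prime → co f p = (p : ℂ) - (pts W (ZMod p) : ℂ)

end modular

/-- The elliptic curve `X_0(11)`, with its global minimal equation
`y² + y = x³ - x² - 10 x - 20`. -/
def X011 : WeierstrassCurve ℤ := ⟨0, -1, 1, -10, -20⟩

section tensor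

/-! ### The abelian variety `A = E ⊗ M`, `M = ℤ^g`

Its points over an algebraic closure of `ℚ` are the `g`-tuples of points of `E`; the Galois group of `ℚ`
acts on them by its action on `E` and the matrices `R(σ)`. -/

/-- The action of an integral matrix on `ℤ^g ⊗ G = G^g`. -/
def mat {G : Type} [AddCommGroup G] {g : ℕ} (A : Matrix (Fin g) (Fin g) ℤ) (P : Fin g → G) :
    Fin g → G := fun i => ∑ j, A i j • P j

variable {g : ℕ} (W : WeierstrassCurve ℤ) (R : Gal ℚ →* GL (Fin g) ℤ)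

/-- The points of `A` over an extension of `ℚ` over which the action on `M` is trivial. -/
abbrev PtA (g : ℕ) (L : Type) [Field L] [Algebra ℚ L] : Type := Fin g → Pt (base W ℚ) L

/-- The action of the Galois group on the points of `A`: `σ` applied to the coordinates, and then the
matrix `R(σ)`. -/
noncomputable def actA (σ : Gal ℚ) (P : PtA W g (AlgebraicClosure ℚ)) :
    PtA W g (AlgebraicClosure ℚ) :=
  mat (R σ : Matrix (Fin g) (Fin g) ℤ) (fun i => act (base W ℚ) σ.toAlgHom (P i))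

/-- `A(ℚ)`. -/
def ptsA : Set (PtA W g (AlgebraicClosure ℚ)) := {P | ∀ σ : Gal ℚ, actA W R σ P = P}

/-- `f` is a continuous cocycle with values in `A`: `f (σ τ) = f σ + σ (f τ)`. -/
def IsCocycle (f : Gal ℚ → PtA W g (AlgebraicClosure ℚ)) : Prop :=
  IsLocallyConstant f ∧ ∀ σ τ : Gal ℚ, f (σ * τ) = f σ + actA W R σ (f τ)

/-- `f` is a coboundary: `f σ = σ P - P`. -/
def IsCoboundary (f : Gal ℚ → PtA W g (AlgebraicClosure ℚ)) : Prop :=
  ∃ P : PtA W g (AlgebraicClosure ℚ), ∀ σ : Gal ℚ, f σ = actA W R σ P - P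

/-- For every embedding of the algebraic closures the restriction of `f` to the absolute Galois
group of `K` is a coboundary: `f σ = τ P - P` for `τ` in this group with restriction `σ`. -/
def LocTriv (K : Type) [Field K] [Algebra ℚ K] (f : Gal ℚ → PtA W g (AlgebraicClosure ℚ)) : Prop :=
  ∀ ι : AlgebraicClosure ℚ →ₐ[ℚ] AlgebraicClosure K, ∃ P : PtA W g (AlgebraicClosure K),
    ∀ (τ : Gal K) (σ : Gal ℚ), (∀ x, τ (ι x) = ι (σ x)) →
      (fun i => act (base W ℚ) ι (f σ i)) = mat (R σ : Matrix (Fin g) (Fin g) ℤ)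
        (fun i => act (base W ℚ) (τ.toAlgHom.restrictScalars ℚ) (P i)) - P

/-- `f` is a continuous cocycle that is locally trivial at all the places of `ℚ`; its class is an
element of `Ш(A/ℚ)`, and this is zero if and only if `f` is a coboundary. -/
def IsShaCocycle (f : Gal ℚ → PtA W g (AlgebraicClosure ℚ)) : Prop :=
  IsCocycle W R f ∧ (∀ (p : ℕ) [Fact p.Prime], LocTriv W R ℚ_[p] f) ∧ LocTriv W R ℝ f

end tensor

section lattice

variable {m g : ℕ} (ρ : (ZMod m)ˣ →* GL (Fin g) ℤ)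

/-- The matrix `ρ(p)` of the Frobenius automorphism at a prime `p` that does not divide `m`. -/
noncomputable def frob (p : ℕ) : Matrix (Fin g) (Fin g) ℤ :=
  if h : p.Coprime m then (ρ (ZMod.unitOfCoprime p h) : Matrix (Fin g) (Fin g) ℤ) else 0

/-- The Euler polynomial of `A = E ⊗ M` at a prime `p` of good reduction that does not divide `m`,
`det (1 - T Frob_p | H¹(A)) = det (1 - a_p T ρ(p) + p T² ρ(p)²)`, where `a_p = p - pts` as `pts` does not
count the point at infinity. -/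
noncomputable def P (W : WeierstrassCurve ℤ) (p : ℕ) (T : ℂ) : ℂ :=
  (1 - ((((p : ℤ) - pts W (ZMod p) : ℤ) : ℂ) * T) • (frob ρ p).map (Int.cast : ℤ → ℂ) +
    ((p : ℂ) * T ^ 2) • ((frob ρ p).map (Int.cast : ℤ → ℂ)) ^ 2).det

/-- `det (1 - a_p / p ρ(p)) = #𝒜⁰(𝔽_p) / p^g` at a prime `p` of bad reduction of `E` that does not
divide `m`. -/
noncomputable def bad (W : WeierstrassCurve ℤ) (p : ℕ) : ℝ :=
  (1 - ((((p : ℤ) - pts W (ZMod p) : ℤ) : ℝ) / p) • (frob ρ p).map (Int.cast : ℤ → ℝ)).det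

/-- The vectors of `M` fixed by the subgroup `H`. -/
noncomputable def fixed (H : Subgroup (ZMod m)ˣ) : Submodule ℤ (Fin g → ℤ) :=
  ⨅ u : H, LinearMap.ker (Matrix.toLin' ((ρ (u : (ZMod m)ˣ) : Matrix (Fin g) (Fin g) ℤ) - 1))

/-- The inertia group at the prime `l ∣ m`, for `m` squarefree: the units congruent to `1` modulo
`m / l`. -/
def inertia (m l : ℕ) : Subgroup (ZMod m)ˣ where
  carrier := {u | ∃ k : ZMod m, (u : ZMod m) = 1 + k * ((m / l : ℕ) : ZMod m)}
  one_mem' := ⟨0, by simp⟩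
  mul_mem' := by
    rintro u v ⟨k, hk⟩ ⟨j, hj⟩
    refine ⟨k + j + k * j * ((m / l : ℕ) : ZMod m), ?_⟩
    rw [Units.val_mul, hk, hj]
    ring
  inv_mem' := by
    rintro u ⟨k, hk⟩
    refine ⟨-k * ((u⁻¹ : (ZMod m)ˣ) : ZMod m), ?_⟩
    have h1 : ((u⁻¹ : (ZMod m)ˣ) : ZMod m) * (u : ZMod m) = 1 := Units.inv_mul u
    have h2 : ((u⁻¹ : (ZMod m)ˣ) : ZMod m) * (1 + k * ((m / l : ℕ) : ZMod m)) = 1 := by
      rw [← hk]; exact h1
    linear_combination h2

/-- The Artin conductor of `M`, `∏_{l ∣ m} l^(g - rank M^(I_l))`, for `m` squarefree. -/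
noncomputable def cond : ℕ :=
  ∏ l ∈ m.primeFactors, l ^ (g - Module.finrank ℤ (fixed ρ (inertia m l)))

/-- `V_∞`, the volume of `A(ℝ)` for the Néron differential of `A`; `-1` is the complex conjugation. -/
noncomputable def Vinf (W : WeierstrassCurve ℤ) : ℝ :=
  realPeriod W ^ Module.finrank ℤ (fixed ρ (Subgroup.zpowers (-1))) *
    (complexPeriod W / realPeriod W) ^
      (g - Module.finrank ℤ (fixed ρ (Subgroup.zpowers (-1)))) / √(cond ρ : ℝ)

end lattice

/-- The contragredient: `A ↦ (A⁻¹)ᵀ`.  It gives the action on the dual lattice `M^∨`. -/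
noncomputable def contra (g : ℕ) : GL (Fin g) ℤ →* GL (Fin g) ℤ where
  toFun A := ⟨((A⁻¹ : GL (Fin g) ℤ) : Matrix (Fin g) (Fin g) ℤ).transpose,
    ((A : GL (Fin g) ℤ) : Matrix (Fin g) (Fin g) ℤ).transpose, by
      rw [← Matrix.transpose_mul, ← Units.val_mul, mul_inv_cancel, Units.val_one,
        Matrix.transpose_one], by
      rw [← Matrix.transpose_mul, ← Units.val_mul, inv_mul_cancel, Units.val_one,
        Matrix.transpose_one]⟩
  map_one' := by
    apply Units.ext
    show ((1⁻¹ : GL (Fin g) ℤ) : Matrix (Fin g) (Fin g) ℤ).transpose = 1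
    rw [inv_one, Units.val_one, Matrix.transpose_one]
  map_mul' A B := by
    apply Units.ext
    show (((A * B)⁻¹ : GL (Fin g) ℤ) : Matrix (Fin g) (Fin g) ℤ).transpose =
      ((A⁻¹ : GL (Fin g) ℤ) : Matrix (Fin g) (Fin g) ℤ).transpose *
        ((B⁻¹ : GL (Fin g) ℤ) : Matrix (Fin g) (Fin g) ℤ).transpose
    rw [mul_inv_rev, Units.val_mul, Matrix.transpose_mul]

/-- The curves to which the general case applies: the discriminant of the equation is negative; the
curve has a newform, and an odd multiple of its periods is in the period lattice of the equation (odd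
Manin constant); the 2-part of the Birch and Swinnerton-Dyer conjecture holds over `ℚ`, with all terms
odd. -/
structure Seed (W : WeierstrassCurve ℤ) : Prop where
  neg : W.Δ < 0
  modular : ∃ (N : ℕ) (_ : NeZero N) (f : CuspForm (Gamma0 N : Subgroup (GL (Fin 2) ℝ)) 2)
    (Λ : PeriodPair) (c : ℤ), IsNewform W N f ∧ Λ.g₂ = (W.c₄ : ℂ) / 12 ∧ Λ.g₃ = (W.c₆ : ℂ) / 216 ∧
    Odd c ∧ ∀ γ ∈ Gamma0 N, ∀ z : ℍ,
      (c : ℂ) * (prim f ((γ • z : ℍ) : ℂ) - prim f (z : ℂ)) ∈ Λ.lattice
  bsd : BSDTwo ℚ W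
  odd : AllOdd ℚ W

/-- **The 2-part of the Birch and Swinnerton-Dyer conjecture** for `A = E ⊗ M` over `ℚ`: the groups of
the rational points of `A` and of its dual are finite of odd order; the 2-primary part of the
Tate-Shafarevich group is zero; the `L`-function (the Euler product over the primes that do not divide
`m Δ`) is entire and its order at `s = 1` is the rank `0`; and
`L(A, 1) = r V_∞ ∏_{p ∣ Δ} #𝒜⁰(𝔽_p) / p^g`, where `r` is a rational number and a unit at 2.  Here `κ` is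
the cyclotomic character, and `ρ ∘ κ` the action of the Galois group of `ℚ` on `M`. -/
structure TwoPart (W : WeierstrassCurve ℤ) {m g : ℕ} (ρ : (ZMod m)ˣ →* GL (Fin g) ℤ)
    (κ : Gal ℚ →* (ZMod m)ˣ) : Prop where
  points : Finite (ptsA W (ρ.comp κ)) ∧ Odd (Nat.card (ptsA W (ρ.comp κ)))
  dual : Finite (ptsA W (((contra g).comp ρ).comp κ)) ∧
    Odd (Nat.card (ptsA W (((contra g).comp ρ).comp κ)))
  sha : ∀ f, IsShaCocycle W (ρ.comp κ) f → ∀ k : ℕ, IsCoboundary W (ρ.comp κ) (2 ^ k • f) →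
    IsCoboundary W (ρ.comp κ) f
  formula : ∃ L : ℂ → ℂ, Differentiable ℂ L ∧
    (∀ s : ℂ, 3 / 2 < s.re → HasProd (fun p : Nat.Primes =>
      if ((p : ℕ) : ℤ) ∣ m * W.Δ then 1 else (P ρ W p (((p : ℕ) : ℂ) ^ (-s)))⁻¹) (L s)) ∧
    analyticOrderAt L 1 = 0 ∧
    ∃ r : ℚ, L 1 = r * (Vinf ρ W * ∏ p ∈ W.Δ.natAbs.primeFactors, bad ρ W p) ∧
      r ≠ 0 ∧ padicValRat 2 r = 0

/-- **Main theorem.** Let `m` be squarefree, with `l ∤ 2 Δ` and `a_l` odd for all primes `l` that divide
`m`, and let `ρ` be an action of `(ℤ/m)ˣ` on `M = ℤ^g` through a 2-group, where `g` is arbitrary.  If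
`E = X_0(11)`, or if `E` satisfies the conditions `Seed` and the primes `p ∣ 2 Δ` act trivially on `M`,
then the 2-part of the Birch and Swinnerton-Dyer conjecture holds for `A = E ⊗ M`, and the orders of
`A(ℚ)`, `A'(ℚ)` are odd and `Ш(A)[2^∞] = 0`. -/
theorem result (W : WeierstrassCurve ℤ) (m : ℕ) [NeZero m] (hsq : Squarefree m)
    (hm : ∀ l : ℕ, l.Prime → l ∣ m → ¬ (l : ℤ) ∣ 2 * W.Δ ∧ Odd ((l : ℤ) - pts W (ZMod l)))
    (g n : ℕ) (ρ : (ZMod m)ˣ →* GL (Fin g) ℤ) (hρ : ∀ u, ρ u ^ (2 ^ n) = 1)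
    (hW : W = X011 ∨ (Seed W ∧ ∀ p : ℕ, p.Prime → (p : ℤ) ∣ 2 * W.Δ →
      ∀ u : (ZMod m)ˣ, (u : ZMod m) = p → ρ u = 1))
    (κ : Gal ℚ →* (ZMod m)ˣ)
    (hκ : ∀ (σ : Gal ℚ) (ζ : AlgebraicClosure ℚ), ζ ^ m = 1 → σ ζ = ζ ^ ((κ σ : ZMod m)).val) :
    TwoPart W ρ κ := by
  have key : Pool.Agent.Y702.A.An W ∧
      Pool.Agent.Y702.A.Triv W (Pool.Agent.Y702.A.fieldOf ρ (CyclotomicField m ℚ)) := by
    rcases hW with rfl | ⟨⟨h1, ⟨N, hN, f, Λ, c, h2, h3, h4, h5, h6⟩, h7, h8⟩, h9⟩
    · exact ⟨Pool.Agent.Y702.A.an11, Pool.Agent.Y702.A.triv11 hm ρ hρ⟩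
    · have h2' : Pool.Agent.Y702.G.BSD.IsNewform W N f := ⟨h2.one, h2.real, h2.mul, h2.pow, h2.good,
        h2.bad, h2.fricke, h2.level, h2.coef⟩
      have h7' : Pool.Agent.Y702.G.BSD.BSDTwo ℚ W :=
        ⟨h7.minimal, h7.tam, h7.rank, h7.points, h7.sha, h7.formula⟩
      have h8' : Pool.Agent.Y702.G.BSD.AllOdd ℚ W := ⟨h8.sha, h8.tam, h8.tors⟩
      exact ⟨Pool.Agent.Y702.A.anG W h1 f h2' Λ h3 h4 ⟨c, h5, h6⟩ h7' h8',
        Pool.Agent.Y702.A.trivG W h1 f h2' Λ h3 h4 ⟨c, h5, h6⟩ h7' h8' m hsq hm ρ hρ h9⟩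
  obtain ⟨hA, hT⟩ := key
  obtain ⟨a1, a2, a3⟩ := Pool.Agent.Y702.A.alg_lib hA.1.ne ρ hρ κ hκ hT
  obtain ⟨L, b1, b2, b3, r, b4, b5, b6⟩ := Pool.Agent.Y702.A.lib_an Pool.Agent.Y153.AREP.s_rep
    Pool.Agent.Y288.G.s_perr Pool.Agent.Y288.G.s_perc hA m hsq hm ρ hρ
  refine ⟨a1, a2, ?_, L, b1, b2, b3, r, ?_, b5, b6⟩
  · intro f hf k hk
    exact Pool.Agent.Y702.A.sha_coc (ρ.comp κ) a3 f hf k hk
  have hcond : (cond ρ : ℝ) = (Pool.Agent.Y702.A.cond ρ : ℝ) := rfl
  have hpos : 0 < √(cond ρ : ℝ) := by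
    apply Real.sqrt_pos.2
    have h1 : 0 < cond ρ := Finset.prod_pos fun l hl =>
      Nat.pow_pos (Nat.prime_of_mem_primeFactors hl).pos
    exact_mod_cast h1
  have hV : Vinf ρ W * ∏ p ∈ W.Δ.natAbs.primeFactors, bad ρ W p =
      Pool.Agent.Y702.A.V ρ W / √(cond ρ : ℝ) := by
    show realPeriod W ^ Module.finrank ℤ (fixed ρ (Subgroup.zpowers (-1))) *
      (complexPeriod W / realPeriod W) ^
        (g - Module.finrank ℤ (fixed ρ (Subgroup.zpowers (-1)))) / √(cond ρ : ℝ) *
          ∏ p ∈ W.Δ.natAbs.primeFactors, bad ρ W p =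
      (realPeriod W ^ Module.finrank ℤ (fixed ρ (Subgroup.zpowers (-1))) *
      (complexPeriod W / realPeriod W) ^
        (g - Module.finrank ℤ (fixed ρ (Subgroup.zpowers (-1)))) *
          ∏ p ∈ W.Δ.natAbs.primeFactors, bad ρ W p) / √(cond ρ : ℝ)
    ring
  have hc : ((√(cond ρ : ℝ) : ℝ) : ℂ) ≠ 0 := by exact_mod_cast hpos.ne'
  have h2 : L 1 * ((√(cond ρ : ℝ) : ℝ) : ℂ) = r * ((Pool.Agent.Y702.A.V ρ W : ℝ) : ℂ) := b4
  have h3 : ((Vinf ρ W * ∏ p ∈ W.Δ.natAbs.primeFactors, bad ρ W p : ℝ) : ℂ) =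
      ((Pool.Agent.Y702.A.V ρ W : ℝ) : ℂ) / ((√(cond ρ : ℝ) : ℝ) : ℂ) := by
    rw [hV, Complex.ofReal_div]
  rw [Complex.ofReal_mul] at h3
  rw [h3]
  field_simp
  exact h2

end Pool.Agent.Results.MP_dfae13_nt.TensorTwoPart
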