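import Pool.Agent.Y715.T.St
import Pool.Agent.Y715.T.Pf

/-!
# The 3-part of the Birch and Swinnerton-Dyer formula for some CM abelian varieties

`K = ℚ(ω)`, `E : y² + y = x³`, and `χ` is a product of characters `lam j` of exact order `3 ^ k`
modulo Eisenstein primes `π j`, `j < m`. The abelian variety `A` over `K`, of dimension
`3 ^ (k - 1)`, is the twist of `E ⊗ ℤ[ζ]` by `χ`; its restriction of scalars `B` to `ℚ` has
dimension `2 * 3 ^ (k - 1)`. The characters `lam j ^ 3 ^ (k - 1)` are the powers with exponents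
`e j` of the cubic residue symbols; put `D = ∏ π j ^ e j`. If `D` is not `1` modulo `9` and if it
does not split as `d₀ d₁ d₂` with coprime factors, at least two of them not units, such that
`d₁ d₂²`, `d₂ d₀²`, `d₀ d₁²` are cubes modulo the primes dividing `d₀`, `d₁`, `d₂`, then

* the `L`-functions of the Hecke characters `ψ χ ^ t`, `t` prime to `3`, are entire, and their
  values at `1` are `Ω (1 - ζ) ^ (m - 1)` up to units above `3`, so that the value of `L(B, s)` at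
  `1` is `Ω ^ (2 * 3 ^ (k - 1)) 3 ^ (m - 1)` up to such a unit;
* `A(K) = B(ℚ)` has order `3` and the `3`-primary part of `Ш(A / K) = Ш(B / ℚ)` is zero.

The definitions are in `Pool.Agent.Y715.T.St`.
-/

open Pool.Agent.Y715.T.St
open scoped Classical

/-- The order of the `3`-part of both sides of the Birch and Swinnerton-Dyer formula. -/
theorem Pool.Agent.Results.MP_dfae13_nt.ThreePartTwists.result (k m : ℕ) (hk : 2 ≤ k)
    -- the Eisenstein primes `π j`
    (π : Fin m → Eis) (hprime : ∀ j, Prime (π j)) (hinj : Function.Injective π)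
    (hthree : ∀ j, (3 : Eis) ∣ π j - 1)
    (hnorm : ∀ j, (3 : ℤ) ^ (k + 1) ∣ nrm (π j) - 1)
    -- the characters
    (lam : ∀ j, MulChar (Eis ⧸ Ideal.span {π j}) ℂ)
    (hlam : ∀ j, orderOf (lam j) = 3 ^ k)
    -- `lam j ^ 3 ^ (k - 1)` is the `e j`-th power of the cubic residue symbol modulo `π j`
    (e : Fin m → ZMod 3)
    (hres : ∀ j (x : Eis) (c : ℕ), π j ∣ x ^ (((nrm (π j)).natAbs - 1) / 3) - ⟨0, 1⟩ ^ c →
      lam j (Ideal.Quotient.mk _ x) ^ 3 ^ (k - 1) = omega ^ (c * (e j).val))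
    -- `∏ π j ^ e j` does not split into three factors with the above property
    (hsplit : ∀ d : ZMod 3 → Eis, ∏ c, d c = ∏ j, π j ^ (e j).val →
      (∀ c c', c ≠ c' → IsCoprime (d c) (d c')) →
      (∀ c j, π j ∣ d c → ∃ x, π j ∣ d (c + 1) * d (c + 2) ^ 2 - x ^ 3) →
      ∃ c, ∀ c', c' ≠ c → IsUnit (d c'))
    (hnine : ¬ (9 : Eis) ∣ ∏ j, π j ^ (e j).val - 1)
    (ζ : ℂ) (hζ : ζ ^ 3 ^ (k - 1) = omega) :
    -- the values of the `L`-functions
    (∃ F : ℕ → ℂ → ℂ, (∀ t, ¬ 3 ∣ t → IsLFunction lam t (F t)) ∧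
      (∀ t, ¬ 3 ∣ t → ∃ u, ThreeUnit u ∧ F t 1 = Omega * (1 - ζ) ^ (m - 1) * u) ∧
      ∃ u, ThreeUnit u ∧ LA k F 1 = (Omega : ℂ) ^ (2 * 3 ^ (k - 1)) * 3 ^ (m - 1) * u) ∧
    -- for the twist by `χ`: `A(K)` has order `3`, and `Ш(A / K)` has no element of order `3`
    ∀ (i₀ : QBar), i₀ ^ 2 + i₀ + 1 = 0 → ∀ a : GalK i₀ → ZMod (3 ^ k), Corresponds ζ lam a →
      (∃ (T : Pts QBar) (h : (E.baseChange QBar).toAffine.Nonsingular 0 0),
        T = .some 0 0 h ∧ pointsK a = {0, fun _ => T, fun _ => -T}) ∧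
      ∀ (f : GalK i₀ → ZMod (3 ^ k) → Pts QBar) (n : ℕ), IsCocycle a f → LocallyTrivial a f →
        IsCoboundary a (fun σ => (3 ^ n) • f σ) → IsCoboundary a f :=
  Pool.Agent.Y715.T.Pf.main k m hk π hprime hinj hthree hnorm lam hlam e hres hsplit hnine ζ hζ
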