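import Mathlib
import Pool.Agent.Y723.SJ.Def
import Pool.Agent.Y723.PT.Main
import Pool.Agent.Y676.Tsm
import Pool.Agent.Y660.TS.Rnk
import Pool.Agent.Y46.KEY.Key

/-!
# Tiny prime twists of Jacobians with rank zero and trivial 2-primary Tate-Shafarevich group

Let `g ≥ 1`. All the curves `y² = (x - a_0) (x - a_1) ... (x - a_{2 g})` with distinct integers `a_i`,
ordered by `max |a_i|`. Every hyperelliptic curve over `ℚ` of genus `g` all of whose `2 g + 2`
Weierstrass points are rational is isomorphic over `ℚ` to such a curve. For almost all of these curves,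
for a positive proportion of the primes up to any bound larger than a power of `log max |a_i|`, the
quadratic twist `J_q` of the Jacobian by the prime `q` satisfies `#(J_q(ℚ) / 2 ^ m J_q(ℚ)) = 2 ^ (2 g)`
and `Ш(J_q)[2 ^ m] = 0` for all `m ≥ 1`. As the group `J_q(ℚ)` is finitely generated (the theorem of
Mordell and Weil, which is not used) this means that its rank is zero and it has no element of
order 4.

The group of the points of `J` over an algebraically closed field, the absolute Galois group, the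
cocycles and `Ш(J)` are defined in `Pool.Agent.Y723.SJ.Def`.
-/

namespace Pool.Agent.Results.MP_dfae13_nt.TinyTwistsOfJacobians

open Finset Pool.Agent.Y723.SJ

open Classical in
/-- the tuples of distinct integers of absolute value at most `X` -/
noncomputable def Fam (g X : ℕ) : Finset (Fin (2 * g + 1) → ℤ) :=
  (Fintype.piFinset (fun _ : Fin (2 * g + 1) => Icc (-(X : ℤ)) X)).filter Function.Injective

/-- The tuple `(q a_0, ..., q a_{2 g})`. The curve `y² = ∏ (x - q a_i)` is the quadratic twist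
`q y² = ∏ (x - a_i)` of the curve `y² = ∏ (x - a_i)`: multiply `x` by `q` and `y` by `q ^ (g + 1)`. -/
def twist {g : ℕ} (q : ℕ) (a : Fin (2 * g + 1) → ℤ) : Fin (2 * g + 1) → ℤ := fun i => (q : ℤ) * a i

open Classical in
/-- the primes `q ≤ Q` such that the Jacobian `J_q` of `y² = ∏ (x - q a_i)` satisfies
`#(J_q(ℚ) / 2 ^ m J_q(ℚ)) = 2 ^ (2 g)` and `Ш(J_q)[2 ^ m] = 0` for all `m ≥ 1` -/
noncomputable def Good {g : ℕ} (Q : ℕ) (a : Fin (2 * g + 1) → ℤ) : Finset ℕ :=
  (Icc 1 Q).filter (fun q => q.Prime ∧ ∀ m : ℕ, 1 ≤ m →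
    Nat.card (QuotQ (twist q a) (2 ^ m)) = 2 ^ (2 * g) ∧
      Nat.card (ShaTorsion (twist q a) (2 ^ m)) = 1)

lemma Fam_eq (g X : ℕ) : Fam g X = Pool.Agent.Y723.JG.Fm (2 * g + 1) X := by
  classical
  unfold Fam Pool.Agent.Y723.JG.Fm Pool.Agent.TH344.JG.BoxJ
  exact filter_congr fun a _ => Iff.rfl

lemma Good_eq {g : ℕ} (Q : ℕ) (a : Fin (2 * g + 1) → ℤ) : Good Q a = Pool.Agent.Y723.PT.TQ Q a := by
  classical
  unfold Good Pool.Agent.Y723.PT.TQ
  exact filter_congr fun q _ => Iff.rfl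

open Classical in
/-- **Theorem.** For every `g ≥ 1` there is a constant `C` such that for every `ε > 0` there are
`c > 0` and `X₀` such that for all `X ≥ X₀` and all `Q ≥ (log X) ^ C` the following holds for all but
at most `ε * #(Fam g X)` of the tuples `a` of `Fam g X`: there are at least `c * Q / log Q` primes
`q ≤ Q` (a positive proportion of all the primes up to `Q`) such that the Jacobian `J_q` of
`y² = ∏ (x - q a_i)`, the quadratic twist by `q` of the Jacobian of `y² = ∏ (x - a_i)`, satisfies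
`#(J_q(ℚ) / 2 ^ m J_q(ℚ)) = 2 ^ (2 g)` and `Ш(J_q)[2 ^ m] = 0` for all `m ≥ 1`. -/
theorem result : ∀ g : ℕ, 1 ≤ g → ∃ C : ℕ, ∀ ε : ℝ, 0 < ε → ∃ c : ℝ, 0 < c ∧ ∃ X₀ : ℕ,
    ∀ X : ℕ, X₀ ≤ X → ∀ Q : ℕ, (Real.log X) ^ C ≤ Q →
      (((Fam g X).filter (fun a => ¬ c * Q / Real.log Q ≤ ((Good Q a).card : ℝ))).card : ℝ) ≤
        ε * ((Fam g X).card : ℝ) := by
  intro g hg
  refine ⟨Pool.Agent.Y723.PT.CE (2 * g + 1), fun ε hε => ?_⟩
  simp only [Fam_eq, Good_eq]
  exact Pool.Agent.Y723.PT.mainJ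
    (Pool.Agent.Y46.KEY.key_of Pool.Agent.Y660.TS.rnk Pool.Agent.Y676.Tsm.tsm) hg ε hε

end Pool.Agent.Results.MP_dfae13_nt.TinyTwistsOfJacobians
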