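import Pool.Agent.Y715.St
import Pool.Agent.Y715.Pf

/-!
# The 2-part of the Birch and Swinnerton-Dyer formula for some CM abelian varieties

`K = ℚ(i)`, `E : y² = x³ - x`, and `χ` is a product of characters `lam j` of exact order `2 ^ k`
modulo Gaussian primes `π j`, `j < m`. The abelian variety `A` over `K`, of dimension
`2 ^ (k - 2)`, is the twist of `E ⊗ ℤ[ζ]` by `χ`; its restriction of scalars `B` to `ℚ` has
dimension `2 ^ (k - 1)`. If `∏ π j` does not split as `d d'` with `d` and `d'` squares modulo each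
other and is not `1` modulo `4 (1 + i)`, then

* the `L`-functions of the Hecke characters `ψ χ ^ t`, `t` odd, are entire, and their values at `1`
  are `Ω (1 - ζ) ^ (m - 1)` up to units above `2`, so that the value of `L(B, s)` at `1` is
  `Ω ^ (2 ^ (k - 1)) 2 ^ (m - 1)` up to such a unit;
* `A(K) = B(ℚ)` has order `2` and the `2`-primary part of `Ш(A / K) = Ш(B / ℚ)` is zero.

The definitions are in `Pool.Agent.Y715.St`.
-/

open Pool.Agent.Y715.St
open scoped Classical

/-- The order of the `2`-part of both sides of the Birch and Swinnerton-Dyer formula. -/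
theorem Pool.Agent.Results.MP_dfae13_nt.TwoPartTwists.result (k m : ℕ) (hk : 3 ≤ k)
    -- the Gaussian primes `π j`
    (π : Fin m → GaussianInt) (hprime : ∀ j, Prime (π j)) (hinj : Function.Injective π)
    (hfour : ∀ j, (4 : GaussianInt) ∣ π j - 1)
    (hnorm : ∀ j, (2 : ℤ) ^ (k + 2) ∣ (π j).norm - 1)
    -- `∏ π j` does not split into two factors that are squares modulo each other
    (hsplit : ∀ d d' : GaussianInt, d * d' = ∏ j, π j → (∃ x, d' ∣ d - x ^ 2) →
      (∃ x, d ∣ d' - x ^ 2) → IsUnit d ∨ IsUnit d')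
    (hodd : ¬ (4 * ⟨1, 1⟩ : GaussianInt) ∣ (∏ j, π j) - 1)
    -- the characters
    (lam : ∀ j, MulChar (GaussianInt ⧸ Ideal.span {π j}) ℂ)
    (hlam : ∀ j, orderOf (lam j) = 2 ^ k)
    (ζ : ℂ) (hζ : ζ ^ (2 ^ (k - 2)) = Complex.I) :
    -- the values of the `L`-functions
    (∃ F : ℕ → ℂ → ℂ, (∀ t, Odd t → IsLFunction lam t (F t)) ∧
      (∀ t, Odd t → ∃ u, TwoUnit u ∧ F t 1 = Omega * (1 - ζ) ^ (m - 1) * u) ∧
      ∃ u, TwoUnit u ∧ LA k F 1 = (Omega : ℂ) ^ (2 ^ (k - 1)) * 2 ^ (m - 1) * u) ∧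
    -- for the twist by `χ`: `A(K)` has order `2`, and `Ш(A / K)` has no element of order `2`
    ∀ (i₀ : QBar), i₀ ^ 2 = -1 → ∀ a : GalK i₀ → ZMod (2 ^ k), Corresponds ζ lam a →
      (∃ (T : Pts QBar) (h : (E.baseChange QBar).toAffine.Nonsingular 0 0),
        T = .some 0 0 h ∧ pointsK a = {0, fun _ => T}) ∧
      ∀ (f : GalK i₀ → ZMod (2 ^ k) → Pts QBar) (n : ℕ), IsCocycle a f → LocallyTrivial a f →
        IsCoboundary a (fun σ => (2 ^ n) • f σ) → IsCoboundary a f :=
  Pool.Agent.Y715.Pf.main k m hk π hprime hinj hfour hnorm hsplit hodd lam hlam ζ hζ
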